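import Pool.Agent.helper19.MX.SpecD

set_option linter.unusedVariables false

namespace MX

open Pool.Agent.helper53.AU AN
open scoped Classical Topology
open Finset (range powerset Icc)

noncomputable section

theorem CUR_ps0 {K : Type} [Field K] : ps (0 : K) = 1 := by
  unfold ps
  rw [if_pos]
  exact ⟨0, by simp⟩

theorem CUR_perf (K : Type) [Field K] [Fintype K] [CharP K 2] : ∀ c : K, ∃ c' : K, c' ^ 2 = c := by
  intro c
  have hinj : Function.Injective (fun z : K => z ^ 2) := by
    have h := frobenius_inj K 2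
    intro a b hab
    exact h hab
  have hsurj : Function.Surjective (fun z : K => z ^ 2) := Finite.surjective_of_injective hinj
  exact hsurj c

theorem CUR_two (l : ℕ) (hl : 1 ≤ l) : 2 ^ l = 2 * 2 ^ (l - 1) := by
  obtain ⟨m, rfl⟩ : ∃ m, l = m + 1 := ⟨l - 1, by omega⟩
  rw [Nat.add_sub_cancel, pow_succ]
  ring

theorem CUR (hCH2 : CH2_stmt) (hFRM : FRM_stmt) (hEXA : EXA_stmt) (hCEX : CEX_stmt) (hBAS : BAS_stmt)
    (hGEN : GEN_stmt) (hRPT : RPT_stmt) (hPTS : PTS_stmt) : CUR_stmt := by
  intro K _ _ n hcard r A lev hT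
  obtain ⟨hchar, hn⟩ := hCH2 K n hcard
  have := hchar
  set H : ℕ := (range r).powerset.sup lev with hH
  set f : ℕ → Polynomial K := fun j => pa H (A j) with hf
  have hsum : ∀ T : Finset ℕ, ∑ j ∈ T, f j = pa H (sumT A T) := fun T => (hFRM K).2 H A T
  have hlevH : ∀ T ⊆ range r, lev T ≤ H := fun T h => Finset.le_sup (Finset.mem_powerset.2 h)
  have hdeg : ∀ T ⊆ range r, T ≠ ∅ → (∑ j ∈ T, f j).natDegree = 2 ^ (lev T) + 1 := by
    intro T h1 h2
    rw [hsum T]
    obtain ⟨a, b, c⟩ := hT T h1 h2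
    exact ((hFRM K).1 (lev T) H (sumT A T) a (hlevH T h1) b).1
  have hodd : ∀ T ⊆ range r, T ≠ ∅ → Odd (∑ j ∈ T, f j).natDegree := by
    intro T h1 h2
    rw [hdeg T h1 h2, CUR_two _ (hT T h1 h2).1]
    exact ⟨2 ^ (lev T - 1), rfl⟩
  obtain ⟨F, iF, iA, F', iF', iA', j, x, y, hAS, hAS', hj⟩ := hEXA K r f hodd
  have hperf := CUR_perf K
  have hch' : CharP (AlgebraicClosure K) 2 :=
    charP_of_injective_algebraMap (algebraMap K (AlgebraicClosure K)).injective 2
  have hperf' : ∀ c : AlgebraicClosure K, ∃ c' : AlgebraicClosure K, c' ^ 2 = c := fun c =>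
    IsAlgClosed.exists_pow_nat_eq c (by norm_num)
  refine ⟨F, iF, iA, F', iF', iA', j, (hBAS K F hperf x r y f hAS).1,
    hCEX K F F' j x r y f hperf hAS hAS' hj, (hBAS (AlgebraicClosure K) F' hperf' (j x) r _ _ hAS').1, ?_, ?_⟩
  · have h1 := hGEN r (AlgebraicClosure K) F' (j x) _ _ hAS'
    have h2 : gAS r (fun i => (f i).map (algebraMap K (AlgebraicClosure K))) = GG r lev := by
      unfold gAS GG
      refine Finset.sum_congr rfl ?_
      intro T hTm
      rw [Finset.mem_erase, Finset.mem_powerset] at hTm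
      have h3 : ∑ i ∈ T, (f i).map (algebraMap K (AlgebraicClosure K)) =
          (∑ i ∈ T, f i).map (algebraMap K (AlgebraicClosure K)) := by
        rw [Polynomial.map_sum]
      rw [h3, Polynomial.natDegree_map, hdeg T hTm.2 hTm.1, Nat.add_sub_cancel,
        CUR_two _ (hT T hTm.2 hTm.1).1, Nat.mul_div_cancel_left _ (by norm_num)]
    rw [h2] at h1
    exact h1
  · have h1 := hRPT K F x r y f hAS
    have h2 := hPTS K r (fun j x => (f j).eval x)
    have h3 : ∑ T ∈ (range r).powerset, ∑ x : K, ps (∑ j ∈ T, (f j).eval x) =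
        (4 ^ n : ℤ) + 2 * (GG r lev : ℤ) * 2 ^ n := by
      rw [← Finset.add_sum_erase _ _ (Finset.mem_powerset.2 (Finset.empty_subset (range r)))]
      have h4 : ∑ x : K, ps (∑ j ∈ (∅ : Finset ℕ), (f j).eval x) = (4 ^ n : ℤ) := by
        simp only [Finset.sum_empty, CUR_ps0, Finset.sum_const, Finset.card_univ, hcard]
        simp
      have h5 : ∑ T ∈ (range r).powerset.erase ∅, ∑ x : K, ps (∑ j ∈ T, (f j).eval x) =
          2 * (GG r lev : ℤ) * 2 ^ n := by
        unfold GG
        push_cast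
        rw [Finset.mul_sum, Finset.sum_mul]
        refine Finset.sum_congr rfl ?_
        intro T hTm
        rw [Finset.mem_erase, Finset.mem_powerset] at hTm
        obtain ⟨a, b, c⟩ := hT T hTm.2 hTm.1
        have h6 : ∀ x : K, ∑ j ∈ T, (f j).eval x = fa (lev T) (sumT A T) x := by
          intro x
          rw [← Polynomial.eval_finsetSum, hsum T]
          exact ((hFRM K).1 (lev T) H (sumT A T) a (hlevH T hTm.2) b).2 x
        simp only [h6]
        rw [c]
        have h7 : (2 : ℤ) ^ (lev T) = 2 * 2 ^ (lev T - 1) := by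
          have := CUR_two (lev T) a
          exact_mod_cast this
        rw [h7]
      rw [h4, h5]
    rw [h3] at h2
    have h8 : Real.sqrt (Fintype.card K : ℝ) = 2 ^ n := by
      rw [hcard]
      push_cast
      rw [show (4 : ℝ) ^ n = (2 ^ n) ^ 2 by rw [← pow_mul, mul_comm, pow_mul]; norm_num]
      exact Real.sqrt_sq (by positivity)
    rw [h8, h1, hcard]
    have h9 : (Nat.card {p : K × (Fin r → K) // ∀ j : Fin r, p.2 j ^ 2 + p.2 j = (f j).eval p.1} : ℝ) =
        (4 ^ n : ℝ) + 2 * (GG r lev : ℝ) * 2 ^ n := by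
      exact_mod_cast h2
    push_cast
    rw [h9]
    ring

end

end MX
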